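import Mathlib
import Pool.Agent.H759R2.Kad.Props6

open scoped ComplexOrder InnerProductSpace ComplexConjugate
open Finset

noncomputable section

namespace H759R2.Kad

universe u v

namespace W406

variable {A : Type u} [CStarAlgebra A]

/-- Self-adjoint elements: `‖a‖ - a` is of the form `b* b`. -/
lemma exists_sq_of_sa (a : A) (ha : star a = a) :
    ∃ b : A, ((‖a‖ : ℝ) : ℂ) • (1 : A) - a = star b * b := by
  letI : PartialOrder A := CStarAlgebra.spectralOrder A
  haveI : StarOrderedRing A := CStarAlgebra.spectralOrderedRing A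
  have h1 : a ≤ algebraMap ℝ A ‖a‖ := IsSelfAdjoint.le_algebraMap_norm_self (a := a) ha
  have h2 : 0 ≤ algebraMap ℝ A ‖a‖ - a := sub_nonneg.mpr h1
  obtain ⟨b, hb⟩ := CStarAlgebra.nonneg_iff_eq_star_mul_self.mp h2
  refine ⟨b, ?_⟩
  rw [← hb, Algebra.algebraMap_eq_smul_one, Complex.coe_smul]

lemma bound_sa (ψ : A →ₗ[ℂ] ℂ) (hpos : ∀ a, 0 ≤ ψ (star a * a)) (h1 : ψ 1 = 1)
    (a : A) (ha : star a = a) : ‖ψ a‖ ≤ ‖a‖ := by
  obtain ⟨b, hb⟩ := exists_sq_of_sa a ha
  obtain ⟨c, hc⟩ := exists_sq_of_sa (-a) (by simp [ha])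
  have e1 := hpos b
  have e2 := hpos c
  rw [← hb] at e1
  rw [← hc] at e2
  simp only [map_sub, map_smul, map_neg, h1, smul_eq_mul, mul_one, norm_neg, sub_neg_eq_add] at e1 e2
  rw [Complex.le_def] at e1 e2
  simp [h1] at e1 e2
  have him : (ψ a).im = 0 := by
    have := e1.2
    linarith
  have hre : ψ a = ((ψ a).re : ℂ) := by
    apply Complex.ext <;> simp [him]
  rw [hre, Complex.norm_real, Real.norm_eq_abs, abs_le]
  constructor
  · linarith [e2.1]
  · linarith [e1.1]

lemma bound_all (ψ : A →ₗ[ℂ] ℂ) (hpos : ∀ a, 0 ≤ ψ (star a * a)) (h1 : ψ 1 = 1)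
    (a : A) : ‖ψ a‖ ≤ 2 * ‖a‖ := by
  have hd : a = ((2 : ℂ)⁻¹) • (a + star a) + (-(2 : ℂ)⁻¹ * Complex.I) • (Complex.I • (a - star a)) := by
    rw [smul_smul]
    have : (-(2 : ℂ)⁻¹ * Complex.I) * Complex.I = (2 : ℂ)⁻¹ := by
      rw [mul_assoc, Complex.I_mul_I]; ring
    rw [this, ← smul_add]
    have : a + star a + (a - star a) = (2 : ℂ) • a := by
      rw [two_smul]; abel
    rw [this, smul_smul]
    norm_num
  have s1 : star (a + star a) = a + star a := by
    rw [star_add, star_star, add_comm]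
  have s2 : star (Complex.I • (a - star a)) = Complex.I • (a - star a) := by
    rw [star_smul, star_sub, star_star]
    simp only [Complex.star_def, Complex.conj_I, neg_smul]
    rw [← smul_neg, neg_sub]
  have b1 := bound_sa ψ hpos h1 _ s1
  have b2 := bound_sa ψ hpos h1 _ s2
  have n1 : ‖a + star a‖ ≤ 2 * ‖a‖ := by
    calc ‖a + star a‖ ≤ ‖a‖ + ‖star a‖ := norm_add_le _ _
      _ = 2 * ‖a‖ := by rw [norm_star]; ring
  have n2 : ‖Complex.I • (a - star a)‖ ≤ 2 * ‖a‖ := by
    rw [norm_smul, Complex.norm_I, one_mul]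
    calc ‖a - star a‖ ≤ ‖a‖ + ‖star a‖ := norm_sub_le _ _
      _ = 2 * ‖a‖ := by rw [norm_star]; ring
  calc ‖ψ a‖ = ‖ψ (((2 : ℂ)⁻¹) • (a + star a) + (-(2 : ℂ)⁻¹ * Complex.I) • (Complex.I • (a - star a)))‖ := by
        rw [← hd]
    _ = ‖((2 : ℂ)⁻¹) * ψ (a + star a) + (-(2 : ℂ)⁻¹ * Complex.I) * ψ (Complex.I • (a - star a))‖ := by
        rw [map_add, map_smul, map_smul, smul_eq_mul, smul_eq_mul]
    _ ≤ ‖((2 : ℂ)⁻¹) * ψ (a + star a)‖ + ‖(-(2 : ℂ)⁻¹ * Complex.I) * ψ (Complex.I • (a - star a))‖ :=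
        norm_add_le _ _
    _ = 2⁻¹ * ‖ψ (a + star a)‖ + 2⁻¹ * ‖ψ (Complex.I • (a - star a))‖ := by
        rw [norm_mul, norm_mul, norm_mul, norm_neg, norm_inv, Complex.norm_I]
        norm_num
    _ ≤ 2 * ‖a‖ := by linarith

lemma polar1 (x y : A) : (4 : ℂ) • (star y * x) =
    star (x + y) * (x + y) - star (x - y) * (x - y)
      + Complex.I • (star (x + Complex.I • y) * (x + Complex.I • y))
      - Complex.I • (star (x - Complex.I • y) * (x - Complex.I • y)) := by
  have hI : star (Complex.I • y) = -(Complex.I • star y) := by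
    rw [star_smul]; simp [Complex.star_def]
  have hI2 : ∀ w : A, Complex.I • Complex.I • w = -w := by
    intro w
    rw [smul_smul, Complex.I_mul_I, neg_one_smul]
  simp only [star_add, star_sub, hI, add_mul, mul_add, sub_mul, mul_sub, neg_mul, mul_neg,
    smul_mul_assoc, mul_smul_comm, smul_add, smul_sub, smul_neg, hI2]
  have h4 : (4 : ℂ) • (star y * x) = (star y * x) + (star y * x) + (star y * x) + (star y * x) := by
    have : (4 : ℂ) = 1 + 1 + 1 + 1 := by norm_num
    rw [this]; simp only [add_smul, one_smul]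
  rw [h4]
  abel

lemma polar2 (x y : A) : (4 : ℂ) • (x * star y) =
    (x + y) * star (x + y) - (x - y) * star (x - y)
      + Complex.I • ((x + Complex.I • y) * star (x + Complex.I • y))
      - Complex.I • ((x - Complex.I • y) * star (x - Complex.I • y)) := by
  have hI : star (Complex.I • y) = -(Complex.I • star y) := by
    rw [star_smul]; simp [Complex.star_def]
  have hI2 : ∀ w : A, Complex.I • Complex.I • w = -w := by
    intro w
    rw [smul_smul, Complex.I_mul_I, neg_one_smul]
  simp only [star_add, star_sub, hI, add_mul, mul_add, sub_mul, mul_sub, neg_mul, mul_neg,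
    smul_mul_assoc, mul_smul_comm, smul_add, smul_sub, smul_neg, hI2]
  have h4 : (4 : ℂ) • (x * star y) = (x * star y) + (x * star y) + (x * star y) + (x * star y) := by
    have : (4 : ℂ) = 1 + 1 + 1 + 1 := by norm_num
    rw [this]; simp only [add_smul, one_smul]
  rw [h4]
  abel

lemma trace_of_norms (τ : A →ₗ[ℂ] ℂ) (h : ∀ x, τ (x * star x) = τ (star x * x)) (a b : A) :
    τ (a * b) = τ (b * a) := by
  have e1 := congrArg τ (polar1 b (star a))
  have e2 := congrArg τ (polar2 b (star a))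
  have e3 : τ ((4 : ℂ) • (star (star a) * b)) = τ ((4 : ℂ) • (b * star (star a))) := by
    rw [e1, e2]
    simp only [map_add, map_sub, map_smul, h]
  rw [map_smul, map_smul, star_star, smul_eq_mul, smul_eq_mul] at e3
  exact mul_left_cancel₀ (by norm_num) e3

end W406

open W406 Filter Topology in
theorem prove6_lim : W_lim.{u} := by
  intro A _ z hψ
  choose ψ hpos h1 hz htr using fun n : ℕ => hψ (1 / ((n : ℝ) + 1)) (by positivity)
  have hlim : ∀ a : A, ∃ t : ℂ, Tendsto (fun n => ψ n a) (hyperfilter ℕ : Filter ℕ) (𝓝 t) := by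
    intro a
    have hc : IsCompact (Metric.closedBall (0 : ℂ) (2 * ‖a‖)) := isCompact_closedBall _ _
    have hm : ∀ n, ψ n a ∈ Metric.closedBall (0 : ℂ) (2 * ‖a‖) := by
      intro n
      rw [mem_closedBall_zero_iff]
      exact bound_all (ψ n) (hpos n) (h1 n) a
    have := hc.ultrafilter_le_nhds ((hyperfilter ℕ).map (fun n => ψ n a)) (by
      rw [le_principal_iff, Ultrafilter.mem_coe, Ultrafilter.mem_map]
      exact Filter.mem_of_superset Filter.univ_mem (fun n _ => hm n))
    obtain ⟨t, -, ht⟩ := this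
    exact ⟨t, ht⟩
  choose t ht using hlim
  let τ : A →ₗ[ℂ] ℂ :=
    { toFun := t
      map_add' := by
        intro a b
        refine tendsto_nhds_unique (ht (a + b)) ?_
        have := (ht a).add (ht b)
        simpa only [map_add] using this
      map_smul' := by
        intro c a
        refine tendsto_nhds_unique (ht (c • a)) ?_
        have := (ht a).const_smul c
        simpa only [map_smul, RingHom.id_apply] using this }
  have hτ : ∀ a, Tendsto (fun n => ψ n a) (hyperfilter ℕ : Filter ℕ) (𝓝 (τ a)) := ht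
  have hp : ∀ a, 0 ≤ τ (star a * a) := by
    intro a
    exact ge_of_tendsto' (hτ _) (fun n => hpos n a)
  have hone : Tendsto (fun n : ℕ => (1 : ℝ) + 1 / ((n : ℝ) + 1)) (hyperfilter ℕ : Filter ℕ)
      (𝓝 1) := by
    have h0 : Tendsto (fun n : ℕ => 1 / ((n : ℝ) + 1)) atTop (𝓝 0) :=
      tendsto_one_div_add_atTop_nhds_zero_nat
    have := (h0.mono_left Nat.hyperfilter_le_atTop).const_add (1 : ℝ)
    simpa using this
  have hle : ∀ x, (τ (x * star x)).re ≤ (τ (star x * x)).re := by
    intro x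
    have l1 : Tendsto (fun n => (ψ n (x * star x)).re) (hyperfilter ℕ : Filter ℕ)
        (𝓝 (τ (x * star x)).re) := (Complex.continuous_re.tendsto _).comp (hτ _)
    have l2 : Tendsto (fun n => (ψ n (star x * x)).re) (hyperfilter ℕ : Filter ℕ)
        (𝓝 (τ (star x * x)).re) := (Complex.continuous_re.tendsto _).comp (hτ _)
    have l3 := hone.mul l2
    rw [one_mul] at l3
    exact le_of_tendsto_of_tendsto' l1 l3 (fun n => htr n x)
  have heq : ∀ x, τ (x * star x) = τ (star x * x) := by
    intro x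
    have a1 := hle x
    have a2 := hle (star x)
    rw [star_star] at a2
    have p1 := hp x
    have p2 := hp (star x)
    rw [star_star] at p2
    rw [Complex.le_def] at p1 p2
    apply Complex.ext
    · exact le_antisymm a1 a2
    · rw [← p1.2, ← p2.2]
  refine ⟨τ, ⟨hp, trace_of_norms τ heq, ?_⟩⟩
  refine tendsto_nhds_unique (hτ z) ?_
  simp only [hz]
  exact tendsto_const_nhds

end H759R2.Kad
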